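import Pool.Agent.H97.LA.Targets

set_option autoImplicit false

namespace Pool.Agent.H12.LA

open Finset Pool.Agent.H60.SYM Pool.Agent.H42.XS Pool.Agent.H97.LA

lemma card_prod_le {F G : Type} [Fintype F] [Fintype G] (P : F → Prop) (Q : G → Prop)
    (R : G → F → Prop) (κ : ℝ)
    (h : ∀ g, (Nat.card {f : F // P f ∧ R g f} : ℝ) ≤ Nat.card {f : F // P f} * κ) :
    (Nat.card {x : F × G // (P x.1 ∧ Q x.2) ∧ R x.2 x.1} : ℝ) ≤
      Nat.card {x : F × G // P x.1 ∧ Q x.2} * κ := by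
  classical
  have e1 : Nat.card {x : F × G // (P x.1 ∧ Q x.2) ∧ R x.2 x.1} =
      ∑ g : {g : G // Q g}, Nat.card {f : F // P f ∧ R g.1 f} := by
    rw [← Nat.card_sigma]
    refine Nat.card_congr ⟨fun x => ⟨⟨x.1.2, x.2.1.2⟩, ⟨x.1.1, x.2.1.1, x.2.2⟩⟩,
      fun y => ⟨(y.2.1, y.1.1), ⟨⟨y.2.2.1, y.1.2⟩, y.2.2.2⟩⟩, fun x => rfl, fun y => rfl⟩
  have e2 : Nat.card {x : F × G // P x.1 ∧ Q x.2} =
      ∑ g : {g : G // Q g}, Nat.card {f : F // P f} := by
    rw [← Nat.card_sigma]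
    refine Nat.card_congr ⟨fun x => ⟨⟨x.1.2, x.2.2⟩, ⟨x.1.1, x.2.1⟩⟩,
      fun y => ⟨(y.2.1, y.1.1), ⟨y.2.2, y.1.2⟩⟩, fun x => rfl, fun y => rfl⟩
  rw [e1, e2]
  push_cast
  rw [Finset.sum_mul]
  exact Finset.sum_le_sum fun g _ => h g.1

/-- the splitting of the rows -/
noncomputable def spl {M : ℕ} (A : Type) (X : Finset (Fin M)) :
    (Fin M → A) ≃ (Fin X.card → A) × ({x // ¬ x ∈ X} → A) :=
  (Equiv.piEquivPiSubtypeProd (fun x => x ∈ X) (fun _ => A)).trans
    (Equiv.prodCongr (Equiv.arrowCongr X.equivFin (Equiv.refl A)) (Equiv.refl _))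

lemma spl_fst {M : ℕ} {A : Type} (X : Finset (Fin M)) (e : Fin M → A) (i : Fin X.card) :
    (spl A X e).1 i = e (X.equivFin.symm i).1 := rfl

lemma spl_snd {M : ℕ} {A : Type} (X : Finset (Fin M)) (e : Fin M → A) (x : {x // ¬ x ∈ X}) :
    (spl A X e).2 x = e x.1 := rfl

/-- the contribution of the rows outside `X` -/
def outc {M n d : ℕ} {X : Finset (Fin M)} (g : {x // ¬ x ∈ X} → Fin (d + 1) → Fin n)
    (y : Fin M → ZMod 2) (v : Fin n) : ZMod 2 :=
  ∑ x : {x // ¬ x ∈ X}, ∑ p, if g x p = v then y x.1 else 0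

lemma comb_spl {M n d : ℕ} (X : Finset (Fin M)) (e : Fin M → Fin (d + 1) → Fin n)
    (y : Fin M → ZMod 2) :
    comb e y = comb (spl _ X e).1 (fun i => y (X.equivFin.symm i).1) + outc (spl _ X e).2 y := by
  funext v
  simp only [comb, outc, Pi.add_apply]
  rw [← Fintype.sum_subtype_add_sum_subtype (fun x => x ∈ X)]
  congr 1
  refine Eq.trans ?_ (Equiv.sum_comp X.equivFin.symm
    (fun i : {x // x ∈ X} => ∑ p, if e i.1 p = v then y i.1 else 0)).symm
  exact Finset.sum_congr (by ext; simp) fun _ _ => rfl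

lemma partite_spl {M n d : ℕ} (X : Finset (Fin M)) (e : Fin M → Fin (d + 1) → Fin n) :
    Partite e ↔ Partite (spl _ X e).1 ∧
      ∀ x p, ((spl _ X e).2 x p : ℕ) % (d + 1) = p := by
  constructor
  · intro h
    exact ⟨fun i p => h _ p, fun x p => h _ p⟩
  · rintro ⟨h1, h2⟩ i p
    by_cases hi : i ∈ X
    · have := h1 (X.equivFin ⟨i, hi⟩) p
      rw [spl_fst, Equiv.symm_apply_apply] at this
      exact this
    · exact h2 ⟨i, hi⟩ p

lemma step {M n d : ℕ} (hFOU : T_FOU) (hd : d + 1 ≤ n) (X : Finset (Fin M))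
    (y : Fin M → ZMod 2) (hy : ∀ x ∈ X, y x = 1) (z : Fin n → ZMod 2)
    (Q : (Fin M → Fin (d + 1) → Fin n) → Prop)
    (hQ : ∀ e e', (spl _ X e).2 = (spl _ X e').2 → (Q e ↔ Q e')) :
    (Nat.card {e : Fin M → Fin (d + 1) → Fin n // (Partite e ∧ Q e) ∧ comb e y = z} : ℝ) ≤
      Nat.card {e : Fin M → Fin (d + 1) → Fin n // Partite e ∧ Q e} *
        (2 ^ (d + 1) / 2 ^ n *
          (1 + Real.exp (-(2 * X.card * (d + 1) / (n + d + 1)))) ^ n) := by
  classical
  have hn : 0 < n := by omega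
  have : Inhabited (Fin X.card → Fin (d + 1) → Fin n) := ⟨fun _ _ => ⟨0, hn⟩⟩
  obtain ⟨Q', hQ'⟩ : ∃ Q' : ({x // ¬ x ∈ X} → Fin (d + 1) → Fin n) → Prop,
      ∀ e, Q e ↔ Q' (spl _ X e).2 := by
    refine ⟨fun g => Q ((spl _ X).symm (default, g)), fun e => hQ _ _ ?_⟩
    rw [Equiv.apply_symm_apply]
  have key := card_prod_le (F := Fin X.card → Fin (d + 1) → Fin n)
    (G := {x // ¬ x ∈ X} → Fin (d + 1) → Fin n) (fun f => Partite f)
    (fun g => (∀ x p, (g x p : ℕ) % (d + 1) = p) ∧ Q' g)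
    (fun g f => comb f (fun _ => 1) = z - outc g y)
    (2 ^ (d + 1) / 2 ^ n * (1 + Real.exp (-(2 * X.card * (d + 1) / (n + d + 1)))) ^ n)
    (by
      intro g
      have h := hFOU n d X.card (fun _ => 1) (z - outc g y) hd
      have hw : wt (fun _ : Fin X.card => (1 : ZMod 2)) = X.card := by
        simp [wt]
      rw [hw] at h
      exact h)
  have e1 : Nat.card {e : Fin M → Fin (d + 1) → Fin n // (Partite e ∧ Q e) ∧ comb e y = z} =
      Nat.card {x : (Fin X.card → Fin (d + 1) → Fin n) ×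
        ({x // ¬ x ∈ X} → Fin (d + 1) → Fin n) //
        (Partite x.1 ∧ (∀ u p, (x.2 u p : ℕ) % (d + 1) = p) ∧ Q' x.2) ∧
          comb x.1 (fun _ => 1) = z - outc x.2 y} := by
    refine Nat.card_congr (Equiv.subtypeEquiv (spl _ X) fun e => ?_)
    rw [partite_spl X e, hQ' e, comb_spl X e y]
    have h1 : (fun i : Fin X.card => y (X.equivFin.symm i).1) = fun _ => 1 := by
      funext i
      exact hy _ (X.equivFin.symm i).2
    rw [h1, eq_sub_iff_add_eq]
    tauto
  have e2 : Nat.card {e : Fin M → Fin (d + 1) → Fin n // Partite e ∧ Q e} =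
      Nat.card {x : (Fin X.card → Fin (d + 1) → Fin n) ×
        ({x // ¬ x ∈ X} → Fin (d + 1) → Fin n) //
        Partite x.1 ∧ (∀ u p, (x.2 u p : ℕ) % (d + 1) = p) ∧ Q' x.2} := by
    refine Nat.card_congr (Equiv.subtypeEquiv (spl _ X) fun e => ?_)
    rw [partite_spl X e, hQ' e]
    tauto
  rw [e1, e2]
  exact key

lemma outc_only {M n d : ℕ} (X : Finset (Fin M)) (e e' : Fin M → Fin (d + 1) → Fin n)
    (h : (spl _ X e).2 = (spl _ X e').2) (y : Fin M → ZMod 2) (hy : ∀ x ∈ X, y x = 0) :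
    comb e y = comb e' y := by
  rw [comb_spl X e y, comb_spl X e' y, h]
  have h1 : (fun i : Fin X.card => y (X.equivFin.symm i).1) = fun _ => 0 := by
    funext i
    exact hy _ (X.equivFin.symm i).2
  rw [h1]
  congr 1
  funext v
  simp [comb]

theorem pf_FOUJ (hFOU : T_FOU) : T_FOUJ := by
  classical
  intro n d M ρ s₀
  induction ρ with
  | zero =>
    intro T z hd h
    rw [pow_zero, mul_one]
    refine Nat.cast_le.mpr (Nat.card_le_card_of_injective
      (fun e : {e : Fin M → Fin (d + 1) → Fin n // Partite e ∧ ∀ j, comb e (T j) = z j} =>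
        (⟨e.1, e.2.1⟩ : {e : Fin M → Fin (d + 1) → Fin n // Partite e})) ?_)
    intro e e' he
    exact Subtype.ext (congrArg (fun x => x.1) he)
  | succ ρ ih =>
    intro T z hd h
    obtain ⟨κ, hκ⟩ : ∃ κ : ℝ, κ = 2 ^ (d + 1) / 2 ^ n *
      (1 + Real.exp (-(2 * s₀ * (d + 1) / (n + d + 1)))) ^ n := ⟨_, rfl⟩
    have hκ0 : 0 ≤ κ := by rw [hκ]; positivity
    obtain ⟨X, hX⟩ : ∃ X : Finset (Fin M), X = univ.filter fun x =>
      T (Fin.last ρ) x ≠ 0 ∧ ∀ j' < Fin.last ρ, T j' x = 0 := ⟨_, rfl⟩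
    have hcard : nw T (Fin.last ρ) = X.card := by rw [hX]; rfl
    have h1 := ih (fun j => T j.castSucc) (fun j => z j.castSucc) hd (by
      intro j
      have h2 := h j.castSucc
      have h3 : nw (fun j => T j.castSucc) j = nw T j.castSucc := by
        unfold nw
        congr 1
        ext x
        simp only [mem_filter, mem_univ, true_and]
        refine and_congr_right fun _ => ⟨fun hh j' hj' => ?_, fun hh j' hj' =>
          hh _ (Fin.castSucc_lt_castSucc_iff.mpr hj')⟩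
        have hj'' : (j' : ℕ) < j := hj'
        have : j' = Fin.castSucc ⟨j', by omega⟩ := by ext; rfl
        rw [this]
        exact hh ⟨j', by omega⟩ hj''
      rw [h3]
      exact h2)
    rw [← hκ] at h1 ⊢
    have h4 := step hFOU hd X (T (Fin.last ρ)) (by
      intro x hx
      rw [hX] at hx
      simp only [mem_filter, mem_univ, true_and] at hx
      have : ∀ c : ZMod 2, c ≠ 0 → c = 1 := by decide
      exact this _ hx.1) (z (Fin.last ρ))
      (fun e => ∀ j : Fin ρ, comb e (T j.castSucc) = z j.castSucc) (by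
        intro e e' he
        refine forall_congr' fun j => ?_
        rw [outc_only X e e' he (T j.castSucc) (by
          intro x hx
          rw [hX] at hx
          simp only [mem_filter, mem_univ, true_and] at hx
          exact hx.2 _ (Fin.castSucc_lt_last j))])
    have h5 : (2 : ℝ) ^ (d + 1) / 2 ^ n *
          (1 + Real.exp (-(2 * X.card * (d + 1) / (n + d + 1)))) ^ n ≤ κ := by
      rw [hκ]
      have h6 : (s₀ : ℝ) ≤ X.card := by
        rw [← hcard]
        exact_mod_cast h (Fin.last ρ)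
      gcongr
    have h7 : (Nat.card {e : Fin M → Fin (d + 1) → Fin n //
        Partite e ∧ ∀ j, comb e (T j) = z j} : ℝ) =
        Nat.card {e : Fin M → Fin (d + 1) → Fin n //
          (Partite e ∧ ∀ j : Fin ρ, comb e (T j.castSucc) = z j.castSucc) ∧
            comb e (T (Fin.last ρ)) = z (Fin.last ρ)} := by
      norm_cast
      refine Nat.card_congr (Equiv.subtypeEquiv (Equiv.refl _) fun e => ?_)
      simp only [Equiv.refl_apply, Fin.forall_fin_succ']
      tauto
    rw [h7, pow_succ]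
    calc _ ≤ _ := h4
      _ ≤ Nat.card {e : Fin M → Fin (d + 1) → Fin n //
          Partite e ∧ ∀ j : Fin ρ, comb e (T j.castSucc) = z j.castSucc} * κ := by gcongr
      _ ≤ (Nat.card {e : Fin M → Fin (d + 1) → Fin n // Partite e} * κ ^ ρ) * κ := by gcongr
      _ = _ := by ring

end Pool.Agent.H12.LA
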